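import Pool.Agent.H17.Til3

set_option autoImplicit false

namespace Pool.Agent.Results.MP_d6d24d_co.NoConvexDual

open Pool.Agent.H17.TilDef

/-- There is a locally finite tiling of `ℝ³` by convex polytopes (a brick tiling by congruent
boxes) which has no dual locally finite tiling of `ℝ³` by convex polytopes. -/
theorem result : ∃ T : Set (Set (EuclideanSpace ℝ (Fin 3))), IsTiling T ∧ IsLocallyFinite T ∧
    ∀ T' : Set (Set (EuclideanSpace ℝ (Fin 3))), IsTiling T' → IsLocallyFinite T' →
      ¬ AreDual T T' :=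
  ⟨Pool.Agent.H17.Til3.BT, Pool.Agent.H17.Til3.tiling, Pool.Agent.H17.Til3.locFin,
    Pool.Agent.H17.Til3.main⟩

end Pool.Agent.Results.MP_d6d24d_co.NoConvexDual
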